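import Pool.Agent.Hhelper31.Factor

/-!
# The group von Neumann algebra used for MP_9b2fd3_an

Lemmas of helper31 (copied from the proof of the frozen statement), with an infinite-dimensional
version of the statement on the dimension.
-/

set_option autoImplicit false

namespace Pool.Agent.CPV

open Pool.Agent.Hhelper31 Pool.Agent.Hhelper31.Gp

/-- parity sign -/
noncomputable def sgn (g : Gp) : ℂ := if Even g.n then 1 else -1

theorem sgn_norm (g : Gp) : ‖sgn g‖ ≤ 1 := by
  unfold sgn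
  split_ifs <;> simp

/-- the parity operator -/
noncomputable def T0 : HH →L[ℂ] HH := mulOp sgn sgn_norm

theorem T0_sq : T0 * T0 = 1 := by
  ext f g
  rw [mul_apply_eq_comp]
  show sgn g * (sgn g * (f : Gp → ℂ) g) = (f : Gp → ℂ) g
  unfold sgn
  split_ifs <;> simp

theorem T0_L_even (k : Gp) (hk : Even k.n) : T0 * L k = L k * T0 := by
  ext f g
  rw [mul_apply_eq_comp, mul_apply_eq_comp]
  show sgn g * (L k f : Gp → ℂ) g = (L k (T0 f) : Gp → ℂ) g
  rw [L_apply, L_apply]
  show sgn g * (f : Gp → ℂ) (k⁻¹ * g) = sgn (k⁻¹ * g) * (f : Gp → ℂ) (k⁻¹ * g)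
  have : sgn g = sgn (k⁻¹ * g) := by
    unfold sgn
    have : Even g.n ↔ Even (k⁻¹ * g).n := by
      rw [mul_n, inv_n, Int.even_add, even_neg]
      tauto
    by_cases h : Even g.n
    · rw [if_pos h, if_pos (this.1 h)]
    · rw [if_neg h, if_neg (fun h2 => h (this.2 h2))]
  rw [this]

theorem T0_L_odd (k : Gp) (hk : ¬ Even k.n) : T0 * L k = - (L k * T0) := by
  ext f g
  rw [mul_apply_eq_comp, neg_apply, mul_apply_eq_comp]
  show sgn g * (L k f : Gp → ℂ) g = - (L k (T0 f) : Gp → ℂ) g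
  rw [L_apply, L_apply]
  show sgn g * (f : Gp → ℂ) (k⁻¹ * g) = - (sgn (k⁻¹ * g) * (f : Gp → ℂ) (k⁻¹ * g))
  have : sgn g = - sgn (k⁻¹ * g) := by
    unfold sgn
    have : Even g.n ↔ ¬ Even (k⁻¹ * g).n := by
      rw [mul_n, inv_n, Int.even_add, even_neg]
      tauto
    by_cases h : Even g.n
    · rw [if_pos h, if_neg (this.1 h)]; simp
    · rw [if_neg h, if_pos (by by_contra h2; exact h (this.2 h2))]
  rw [this]
  ring

theorem T0_cc : T0 * cc = - (cc * T0) := by
  unfold cc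
  rw [mul_add, add_mul, T0_L_odd x (by simp), T0_L_odd x⁻¹ (by simp)]
  abel

theorem T0_aa : T0 * aa = aa * T0 := by
  unfold aa
  rw [mul_add, add_mul, T0_L_even y (by simp), T0_L_even y⁻¹ (by simp)]

/-- the coefficient at the identity -/
theorem aa_coeff : (aa (dl 1) : Gp → ℂ) 1 = 0 := by
  unfold aa
  rw [add_apply]
  show (L y (dl 1) : Gp → ℂ) 1 + (L y⁻¹ (dl 1) : Gp → ℂ) 1 = 0
  rw [L_dl, L_dl, dl_ne, dl_ne, add_zero]
  · intro h
    have := congrArg Gp.n h
    simp at this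
  · intro h
    have := congrArg Gp.n h
    simp at this

theorem cc_coeff : (cc (dl 1) : Gp → ℂ) 1 = 0 := by
  unfold cc
  rw [add_apply]
  show (L x (dl 1) : Gp → ℂ) 1 + (L x⁻¹ (dl 1) : Gp → ℂ) 1 = 0
  rw [L_dl, L_dl, dl_ne, dl_ne, add_zero]
  · intro h
    have := congrArg Gp.n h
    simp at this
  · intro h
    have := congrArg Gp.n h
    simp at this

theorem cc_coeff_x : (cc (dl 1) : Gp → ℂ) x = 1 := by
  unfold cc
  rw [add_apply]
  show (L x (dl 1) : Gp → ℂ) x + (L x⁻¹ (dl 1) : Gp → ℂ) x = 1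
  rw [L_dl, L_dl, mul_one, dl_self, dl_ne, add_zero]
  intro h
  have := congrArg Gp.n h
  simp at this

theorem one_coeff : ((1 : HH →L[ℂ] HH) (dl 1) : Gp → ℂ) 1 = 1 := by
  show (dl 1 : Gp → ℂ) 1 = 1
  exact dl_self 1

theorem M_factor (z : HH →L[ℂ] HH) (hz : z ∈ M) (h : ∀ x ∈ M, x * z = z * x) :
    ∃ c : ℂ, z = c • (1 : HH →L[ℂ] HH) :=
  ⟨_, scalar_of_comm hz (fun k _ => (h (L k) (L_mem k)).symm)⟩

theorem M_inf : ¬ ∃ s : Finset (HH →L[ℂ] HH),
    ∀ x ∈ M, x ∈ Submodule.span ℂ (s : Set (HH →L[ℂ] HH)) := by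
  rintro ⟨s, h⟩
  let v : Fin (s.card + 1) → (HH →L[ℂ] HH) := fun i => L ⟨(i : ℕ), 0⟩
  have hv : LinearIndependent ℂ v := by
    rw [Fintype.linearIndependent_iff]
    intro c hc j
    have h1 : ((∑ i, c i • v i) (dl 1) : Gp → ℂ) ⟨(j : ℕ), 0⟩ = 0 := by
      rw [hc]; rfl
    have h2 : (∑ i, c i • v i) (dl 1) = ∑ i, c i • (dl ⟨(i : ℕ), 0⟩ : HH) := by
      rw [sum_apply]
      apply Finset.sum_congr rfl
      intro i _
      show c i • (L ⟨(i : ℕ), 0⟩ (dl 1)) = _
      rw [L_dl, mul_one]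
    rw [h2] at h1
    have h3 : ((∑ i, c i • (dl ⟨(i : ℕ), 0⟩ : HH) : HH) : Gp → ℂ) ⟨(j : ℕ), 0⟩
        = ∑ i, c i * ((dl ⟨(i : ℕ), 0⟩ : HH) : Gp → ℂ) ⟨(j : ℕ), 0⟩ := by
      rw [lp.coeFn_sum, Finset.sum_apply]
      rfl
    rw [h3, Finset.sum_eq_single j] at h1
    · rw [dl_self, mul_one] at h1
      exact h1
    · intro i _ hij
      rw [dl_ne, mul_zero]
      intro h4
      have := congrArg Gp.n h4
      apply hij
      simp only at this
      exact Fin.ext (by exact_mod_cast this.symm)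
    · intro h4
      exact absurd (Finset.mem_univ j) h4
  have h5 := linearIndependent_le_span_aux' v hv (s : Set (HH →L[ℂ] HH))
    (by
      rintro _ ⟨i, rfl⟩
      exact h _ (L_mem _))
  simp at h5

theorem main_contra (J : (HH →L[ℂ] HH) → (HH →L[ℂ] HH))
    (hJ : Set.BijOn J (M : Set (HH →L[ℂ] HH)) (M : Set (HH →L[ℂ] HH)))
    (hlin : ∀ x ∈ M, ∀ y ∈ M, ∀ c : ℂ,
        J (x + y) = J x + J y ∧ J (c • x) = c • J x ∧
        J (star x) = star (J x) ∧
        J (x * y + y * x) = J x * J y + J y * J x)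
    (hid : ∀ p ∈ M, IsSelfAdjoint p → p ≠ aa → p ≠ cc →
        ∃ b, b ∈ Set.centralizer (Set.centralizer ({p} : Set (HH →L[ℂ] HH))) ∧ J b = p)
    (hac : ∃ b, b ∈ Set.centralizer (Set.centralizer ({aa} : Set (HH →L[ℂ] HH))) ∧ J b = cc) :
    False := by
  -- double commutant membership in convenient form
  have dc : ∀ {p b : HH →L[ℂ] HH},
      b ∈ Set.centralizer (Set.centralizer ({p} : Set (HH →L[ℂ] HH))) ↔
        ∀ T : HH →L[ℂ] HH, p * T = T * p → T * b = b * T := by
    intro p b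
    rw [Set.mem_centralizer_iff]
    constructor
    · intro h T hT
      exact h T (by rw [Set.mem_centralizer_iff]; rintro _ rfl; exact hT)
    · intro h T hT
      exact h T (by rw [Set.mem_centralizer_iff] at hT; exact hT p rfl)
  have dcM : ∀ {p b : HH →L[ℂ] HH}, p ∈ M →
      (∀ T : HH →L[ℂ] HH, p * T = T * p → T * b = b * T) → b ∈ M := by
    intro p b hp hb
    rw [mem_M] at hp ⊢
    intro g
    exact hb (R g) (hp g).symm
  have hadd : ∀ x ∈ M, ∀ y ∈ M, J (x + y) = J x + J y := fun x hx y hy => (hlin x hx y hy 1).1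
  have hsmul : ∀ x ∈ M, ∀ c : ℂ, J (c • x) = c • J x := fun x hx c => (hlin x hx x hx c).2.1
  have hsub : ∀ x ∈ M, ∀ y ∈ M, J (x - y) = J x - J y := by
    intro x hx y hy
    have h1 : x - y = x + (-1 : ℂ) • y := by rw [neg_one_smul, sub_eq_add_neg]
    rw [h1, hadd x hx _ (smul_mem_M _ hy), hsmul y hy, neg_one_smul, sub_eq_add_neg]
  have hinj : ∀ x ∈ M, ∀ y ∈ M, J x = J y → x = y := fun x hx y hy h => hJ.2.1 hx hy h
  -- claim 1
  have c1 : ∀ p ∈ M, IsSelfAdjoint p → ∃ b, b ∈ M ∧ J b = p ∧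
      ∀ T : HH →L[ℂ] HH, p * T = T * p → T * b = b * T := by
    intro p hp hsa
    by_cases hpp : p ≠ aa ∧ p ≠ cc
    · obtain ⟨b, hb, hJb⟩ := hid p hp hsa hpp.1 hpp.2
      rw [dc] at hb
      exact ⟨b, dcM hp hb, hJb, hb⟩
    · have hp0 : (p (dl 1) : Gp → ℂ) 1 = 0 := by
        by_cases h1 : p = aa
        · rw [h1]; exact aa_coeff
        · by_cases h2 : p = cc
          · rw [h2]; exact cc_coeff
          · exact absurd ⟨h1, h2⟩ hpp
      have hp1 : ((p + 1) (dl 1) : Gp → ℂ) 1 = 1 := by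
        rw [add_apply]
        show (p (dl 1) : Gp → ℂ) 1 + ((1 : HH →L[ℂ] HH) (dl 1) : Gp → ℂ) 1 = 1
        rw [hp0, one_coeff, zero_add]
      obtain ⟨b1, hb1, hJb1⟩ := hid (p + 1) (add_mem_M hp one_mem_M)
        (hsa.add (IsSelfAdjoint.one _))
        (by intro h; rw [h, aa_coeff] at hp1; exact zero_ne_one hp1)
        (by intro h; rw [h, cc_coeff] at hp1; exact zero_ne_one hp1)
      obtain ⟨b2, hb2, hJb2⟩ := hid 1 one_mem_M (IsSelfAdjoint.one _)
        (by intro h; have h3 := one_coeff; rw [h, aa_coeff] at h3; exact zero_ne_one h3)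
        (by intro h; have h3 := one_coeff; rw [h, cc_coeff] at h3; exact zero_ne_one h3)
      rw [dc] at hb1 hb2
      have hM1 := dcM (add_mem_M hp one_mem_M) hb1
      have hM2 := dcM one_mem_M hb2
      have hM3 : b1 - b2 ∈ M := by
        have h1 : b1 - b2 = b1 + (-1 : ℂ) • b2 := by rw [neg_one_smul, sub_eq_add_neg]
        rw [h1]
        exact add_mem_M hM1 (smul_mem_M _ hM2)
      refine ⟨b1 - b2, hM3, ?_, ?_⟩
      · rw [hsub b1 hM1 b2 hM2, hJb1, hJb2, add_sub_cancel_right]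
      · intro T hT
        have h4 := hb1 T (by rw [add_mul, mul_add, hT, one_mul, mul_one])
        have h5 := hb2 T (by rw [one_mul, mul_one])
        rw [mul_sub, sub_mul, h4, h5]
  -- the preimage of c
  obtain ⟨bc, hbc, hJbc⟩ := hac
  rw [dc] at hbc
  have hbcM : bc ∈ M := dcM aa_mem hbc
  have hbcT : T0 * bc = bc * T0 := hbc T0 T0_aa.symm
  have hbcc : cc * bc = bc * cc := by
    obtain ⟨b, hb, hJb, hb2⟩ := c1 cc cc_mem cc_sa
    have : bc = b := hinj _ hbcM _ hb (by rw [hJbc, hJb])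
    rw [this]
    exact hb2 cc rfl
  -- claim 3
  have c3 : ∀ q ∈ M, IsSelfAdjoint q → T0 * q = q * T0 → bc * q = q * bc := by
    intro q hq hsa hqT
    obtain ⟨bq, hbq, hJq, hcq⟩ := c1 q hq hsa
    obtain ⟨b', hb', hJ', hc'⟩ := c1 (cc + q) (add_mem_M cc_mem hq) (cc_sa.add hsa)
    have e1 : b' = bc + bq := by
      apply hinj _ hb' _ (add_mem_M hbcM hbq)
      rw [hadd _ hbcM _ hbq, hJbc, hJq, hJ']
    have e2 : (cc + q) * b' = b' * (cc + q) := hc' (cc + q) rfl
    have e3 : q * bq = bq * q := hcq q rfl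
    have e4 : T0 * bq = bq * T0 := hcq T0 hqT.symm
    rw [e1, add_mul, mul_add, mul_add, add_mul, mul_add, mul_add, hbcc, e3] at e2
    -- bc * q - q * bc = cc * bq - bq * cc
    set X := bc * q - q * bc with hX
    have e5 : X = cc * bq - bq * cc := by
      rw [hX]
      have : cc * bq + q * bc = bq * cc + bc * q := by
        have e6 : bc * cc + cc * bq + (q * bc + bq * q) = bc * cc + bq * cc + (bc * q + bq * q) := by
          rw [e2]; abel
        have e7 : cc * bq + q * bc = (bc * cc + cc * bq + (q * bc + bq * q)) - bc * cc - bq * q := by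
          abel
        rw [e7, e6]; abel
      rw [sub_eq_sub_iff_add_eq_add, add_comm (bc * q), ← this, add_comm]
    have e8 : T0 * X = X * T0 := by
      rw [hX, mul_sub, sub_mul, ← mul_assoc, hbcT, mul_assoc bc T0 q, hqT, ← mul_assoc T0 q bc, hqT,
        mul_assoc q T0 bc, hbcT]
      simp only [mul_assoc]
    have e9 : T0 * X = - (X * T0) := by
      rw [e5, mul_sub, sub_mul, ← mul_assoc, T0_cc, ← mul_assoc T0 bq cc, e4, mul_assoc bq T0 cc,
        T0_cc, neg_mul, mul_assoc cc T0 bq, e4, mul_neg]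
      simp only [mul_assoc]
      abel
    have e10 : X * T0 = 0 := by
      have h1 : X * T0 = - (X * T0) := by rw [← e9, e8]
      have h2 : (2 : ℂ) • (X * T0) = 0 := by
        rw [two_smul]
        nth_rewrite 2 [h1]
        exact add_neg_cancel _
      exact (smul_eq_zero.1 h2).resolve_left two_ne_zero
    have e11 : X = 0 := by
      calc X = X * (T0 * T0) := by rw [T0_sq, mul_one]
        _ = (X * T0) * T0 := by rw [mul_assoc]
        _ = 0 := by rw [e10, zero_mul]
    exact sub_eq_zero.1 e11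
  -- claim 4
  have c4 : ∀ k : Gp, Even k.n → bc * L k = L k * bc := by
    intro k hk
    have hk' : Even (k⁻¹).n := by simpa using hk
    have h1 := c3 (L k + L k⁻¹) (add_mem_M (L_mem _) (L_mem _))
      (by rw [isSelfAdjoint_iff, star_add, star_L, star_L, inv_inv, add_comm])
      (by rw [mul_add, add_mul, T0_L_even k hk, T0_L_even k⁻¹ hk'])
    have h2 := c3 (Complex.I • (L k - L k⁻¹))
      (smul_mem_M _ (by
        have h1 : L k - L k⁻¹ = L k + (-1 : ℂ) • L k⁻¹ := by rw [neg_one_smul, sub_eq_add_neg]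
        rw [h1]
        exact add_mem_M (L_mem _) (smul_mem_M _ (L_mem _))))
      (by
        rw [isSelfAdjoint_iff, star_smul, star_sub, star_L, star_L, inv_inv]
        simp only [Complex.star_def, Complex.conj_I, neg_smul, smul_sub]
        abel)
      (by rw [mul_smul_comm, smul_mul_assoc, mul_sub, sub_mul, T0_L_even k hk, T0_L_even k⁻¹ hk'])
    rw [mul_smul_comm, smul_mul_assoc] at h2
    have h3 := smul_right_injective _ Complex.I_ne_zero h2
    simp only [mul_add, add_mul, mul_sub, sub_mul] at h1 h3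
    have h4 : (2 : ℂ) • (bc * L k) = (2 : ℂ) • (L k * bc) := by
      rw [two_smul, two_smul]
      calc bc * L k + bc * L k = (bc * L k + bc * L k⁻¹) + (bc * L k - bc * L k⁻¹) := by abel
        _ = (L k * bc + L k⁻¹ * bc) + (L k * bc - L k⁻¹ * bc) := by rw [h1, h3]
        _ = L k * bc + L k * bc := by abel
    exact smul_right_injective _ two_ne_zero h4
  have c5 := scalar_of_comm hbcM c4
  obtain ⟨b1, hb1, hJb1, hc1⟩ := c1 1 one_mem_M (IsSelfAdjoint.one _)
  have c6 := scalar_of_comm hb1 (fun k _ => (hc1 (L k) (by rw [one_mul, mul_one])).symm)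
  set μ := (bc (dl 1) : Gp → ℂ) 1
  set ν := (b1 (dl 1) : Gp → ℂ) 1
  have h1 : ν • J 1 = 1 := by rw [← hsmul 1 one_mem_M, ← c6, hJb1]
  have h2 : μ • J 1 = cc := by rw [← hsmul 1 one_mem_M, ← c5, hJbc]
  have h3 : μ • (1 : HH →L[ℂ] HH) = ν • cc := by
    rw [← h1, ← h2, smul_smul, smul_smul, mul_comm]
  have hν : ν ≠ 0 := by
    intro h4
    rw [h4, zero_smul] at h1
    have h5 := one_coeff
    rw [← h1] at h5
    exact zero_ne_one h5
  have h6 : ((μ • (1 : HH →L[ℂ] HH)) (dl 1) : Gp → ℂ) x = ((ν • cc) (dl 1) : Gp → ℂ) x := by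
    rw [h3]
  have h7 : μ * (dl 1 : Gp → ℂ) x = ν * (cc (dl 1) : Gp → ℂ) x := h6
  rw [cc_coeff_x, dl_ne, mul_zero, mul_one] at h7
  · exact hν h7.symm
  · intro h8
    have := congrArg Gp.n h8
    simp at this

end Pool.Agent.CPV
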